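import Pool.Agent.LSG.StmtsA

/-!
# Row CLP of squad LSG: the set of the points whose support is in a closed set is closed
-/

set_option autoImplicit false

open MeasureTheory Set Topology

namespace Pool.Agent.LSG.H25

open Pool.Agent.LSG

theorem clp : ClpStmt := by
  intro X Y _ _ _ T c hT F hF
  classical
  letI := TopologicalSpace.metrizableSpaceMetric X
  rw [← isOpen_compl_iff, isOpen_iff_mem_nhds]
  intro y hy
  rw [mem_compl_iff, mem_setOf_eq] at hy
  push Not at hy
  obtain ⟨a, ha, haF⟩ := hy
  have hS : IsClosed (F ∪ (((c y).support.erase a : Finset X) : Set X)) :=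
    hF.union ((c y).support.erase a).finite_toSet.isClosed
  have hdisj : Disjoint (F ∪ (((c y).support.erase a : Finset X) : Set X)) {a} := by
    rw [Set.disjoint_singleton_right]
    rintro (h | h)
    · exact haF h
    · exact absurd h (by simp)
  obtain ⟨f, hf0, hf1, -⟩ := exists_continuous_zero_one_of_isClosed hS isClosed_singleton hdisj
  have hfa : f a = 1 := hf1 rfl
  have hTy : T f y = c y a := by
    rw [hT f y, Finsupp.sum, Finset.sum_eq_single a]
    · rw [hfa, mul_one]
    · intro b hb hba
      have h1 : f b = 0 := hf0 (Or.inr (by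
        rw [Finset.mem_coe, Finset.mem_erase]
        exact ⟨hba, hb⟩))
      rw [h1, mul_zero]
    · intro h
      rw [Finsupp.notMem_support_iff.mp h, zero_mul]
  have hopen : IsOpen {y' : Y | T f y' ≠ 0} := isOpen_ne_fun (T f).continuous continuous_const
  refine Filter.mem_of_superset (hopen.mem_nhds (by
    rw [mem_setOf_eq, hTy]
    exact ha)) ?_
  intro y' hy' hcon
  apply hy'
  rw [hT f y', Finsupp.sum]
  refine Finset.sum_eq_zero fun b hb => ?_
  have h1 : f b = 0 := hf0 (Or.inl (hcon b (Finsupp.mem_support_iff.mp hb)))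
  rw [h1, mul_zero]

end Pool.Agent.LSG.H25
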