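import Pool.Agent.LSG.StmtsC

/-!
# Row UNB of squad LSG: groups with an unbounded continuous length function
-/

set_option autoImplicit false

open MeasureTheory Set Topology
open scoped BigOperators Pointwise

namespace Pool.Agent.LSG.H25

open Pool.Agent.LSG

/-- `X × ℕ` is a countable sum of copies of `X` -/
def homN (X : Type) [TopologicalSpace X] : (X × ℕ) ≃ₜ (Σ _ : ℕ, X) where
  toFun p := ⟨p.2, p.1⟩
  invFun q := (q.2, q.1)
  left_inv _ := rfl
  right_inv _ := rfl
  continuous_toFun := by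
    rw [continuous_prod_of_discrete_right]
    intro n
    exact continuous_sigmaMk (σ := fun _ : ℕ => X) (i := n)
  continuous_invFun := by
    rw [continuous_sigma_iff]
    intro n
    have h : Continuous fun x : X => (x, n) := continuous_id.prodMk continuous_const
    exact h

theorem compl_trans {E F M : Type} [AddCommGroup E] [Module ℝ E] [TopologicalSpace E]
    [AddCommGroup F] [Module ℝ F] [TopologicalSpace F] [AddCommGroup M] [Module ℝ M]
    [TopologicalSpace M] (h1 : Compl E F) (h2 : Compl F M) : Compl E M := by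
  obtain ⟨i, p, hip⟩ := h1
  obtain ⟨j, q, hjq⟩ := h2
  refine ⟨j.comp i, p.comp q, fun x => ?_⟩
  change p (q (j (i x))) = x
  rw [hjq, hip]

/-! ### the restriction to the members of a cover -/

section cover

variable {H : Type} [TopologicalSpace H]

open Classical in
/-- the value at `x`, read as 0 off `B` -/
noncomputable def ev {B : Set H} (F : ↥(Cp B)) (x : H) : ℝ :=
  if hx : x ∈ B then F.1 ⟨x, hx⟩ else 0

theorem ev_add {B : Set H} (F F' : ↥(Cp B)) (x : H) : ev (F + F') x = ev F x + ev F' x := by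
  unfold ev
  split_ifs with h
  · rfl
  · rw [add_zero]

theorem ev_smul {B : Set H} (c : ℝ) (F : ↥(Cp B)) (x : H) : ev (c • F) x = c * ev F x := by
  unfold ev
  split_ifs with h
  · rfl
  · rw [mul_zero]

theorem ev_cont {B : Set H} (x : H) : Continuous fun F : ↥(Cp B) => ev F x := by
  unfold ev
  split_ifs with h
  · exact (continuous_apply (⟨x, h⟩ : B)).comp continuous_subtype_val
  · exact continuous_const

theorem ev_contAt {B U : Set H} (hU : IsOpen U) (hUB : U ⊆ B) (F : ↥(Cp B)) (x : H) (hx : x ∈ U) :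
    ContinuousAt (ev F) x := by
  have h1 : ContinuousOn (ev F) U := by
    have hF : Continuous F.1 := F.2
    have h2 : Continuous fun y : ↥U => (⟨y.1, hUB y.2⟩ : B) :=
      Continuous.subtype_mk continuous_subtype_val _
    have h3 : (fun y : ↥U => ev F y.1) = fun y => F.1 (⟨y.1, hUB y.2⟩ : B) := by
      funext y
      unfold ev
      exact dif_pos (hUB y.2)
    have h4 : Continuous (fun y : ↥U => ev F y.1) := by
      rw [h3]
      exact hF.comp h2
    exact continuousOn_iff_continuous_domRestrict.2 h4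
  exact h1.continuousAt (hU.mem_nhds hx)

theorem cover_compl [TopologicalSpace.MetrizableSpace H] (B U : ℕ → Set H) (hUo : ∀ n, IsOpen (U n))
    (hUB : ∀ n, U n ⊆ B n) (hcov : (univ : Set H) ⊆ ⋃ n, U n) :
    Compl ↥(Cp H) (∀ n, ↥(Cp (B n))) := by
  letI : MetricSpace H := TopologicalSpace.metrizableSpaceMetric H
  obtain ⟨ρ, hρ⟩ := PartitionOfUnity.exists_isSubordinate isClosed_univ U hUo hcov
  have hfin : ∀ x, {n | ρ n x ≠ 0}.Finite := by
    intro x
    exact ρ.locallyFinite.point_finite x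
  have hsupp : ∀ n x, ρ n x ≠ 0 → x ∈ U n := by
    intro n x hx
    exact hρ n (subset_tsupport _ hx)
  let i : ↥(Cp H) →L[ℝ] (∀ n, ↥(Cp (B n))) :=
    { toFun := fun f n => ⟨fun v : B n => f.1 v.1, by
        have hf : Continuous f.1 := f.2
        exact hf.comp continuous_subtype_val⟩
      map_add' := fun f g => rfl
      map_smul' := fun c f => rfl
      cont := by
        refine continuous_pi fun n => Continuous.subtype_mk (continuous_pi fun v => ?_) _
        exact (continuous_apply v.1).comp continuous_subtype_val }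
  let p : (∀ n, ↥(Cp (B n))) →L[ℝ] ↥(Cp H) :=
    { toFun := fun F => ⟨fun x => ∑ n ∈ (hfin x).toFinset, ρ n x * ev (F n) x, by
        show Continuous _
        have h1 : (fun x => ∑ n ∈ (hfin x).toFinset, ρ n x * ev (F n) x) =
            fun x => ∑ᶠ n, ρ n x • ev (F n) x := by
          funext x
          rw [finsum_eq_sum_of_support_subset (s := (hfin x).toFinset)]
          · rfl
          · intro n hn
            rw [Function.mem_support] at hn
            simp only [Set.Finite.coe_toFinset, Set.mem_setOf_eq]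
            intro h0
            apply hn
            rw [h0, zero_smul]
        rw [h1]
        apply ρ.continuous_finsum_smul
        intro n x hx
        exact ev_contAt (hUo n) (hUB n) (F n) x (hρ n hx)⟩
      map_add' := by
        intro F G
        apply Subtype.ext
        funext x
        show ∑ n ∈ (hfin x).toFinset, ρ n x * ev (F n + G n) x =
          ∑ n ∈ (hfin x).toFinset, ρ n x * ev (F n) x +
          ∑ n ∈ (hfin x).toFinset, ρ n x * ev (G n) x
        rw [← Finset.sum_add_distrib]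
        apply Finset.sum_congr rfl
        intro n _
        rw [ev_add, mul_add]
      map_smul' := by
        intro c F
        apply Subtype.ext
        funext x
        show ∑ n ∈ (hfin x).toFinset, ρ n x * ev (c • F n) x =
          c * ∑ n ∈ (hfin x).toFinset, ρ n x * ev (F n) x
        rw [Finset.mul_sum]
        apply Finset.sum_congr rfl
        intro n _
        rw [ev_smul]
        ring
      cont := by
        refine Continuous.subtype_mk (continuous_pi fun x => ?_) _
        refine continuous_finsetSum _ fun n _ => ?_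
        exact continuous_const.mul ((ev_cont x).comp (continuous_apply n)) }
  refine ⟨i, p, ?_⟩
  intro f
  apply Subtype.ext
  funext x
  show ∑ n ∈ (hfin x).toFinset, ρ n x * ev (i f n) x = f.1 x
  have h2 : ∀ n ∈ (hfin x).toFinset, ρ n x * ev (i f n) x = ρ n x * f.1 x := by
    intro n hn
    rw [Set.Finite.mem_toFinset] at hn
    have hx : x ∈ B n := hUB n (hsupp n x hn)
    congr 1
    unfold ev
    rw [dif_pos hx]
    rfl
  rw [Finset.sum_congr rfl h2, ← Finset.sum_mul]
  have h3 : ∑ n ∈ (hfin x).toFinset, ρ n x = 1 := by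
    rw [← ρ.sum_eq_one (mem_univ x), finsum_eq_sum_of_support_subset (s := (hfin x).toFinset)]
    intro n hn
    simpa using hn
  rw [h3, one_mul]

end cover

/-! ### a locally finite family of translates -/

section trans

variable {H : Type} [Group H] [TopologicalSpace H] {κ : Type}

omit [TopologicalSpace H] in
theorem mem_iff (a : H) (V : Set H) (z : H) : z ∈ a • V ↔ a⁻¹ * z ∈ V := by
  rw [Set.mem_smul_set_iff_inv_smul_mem, smul_eq_mul]

theorem key (V : κ → Set H) (g : κ → H) (F : ∀ q, ↥(Cp (V q))) (m n : κ) (z : H)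
    (hm : (g m)⁻¹ * z ∈ V m) (hn : (g n)⁻¹ * z ∈ V n) (h : m = n) :
    (F m).1 ⟨(g m)⁻¹ * z, hm⟩ = (F n).1 ⟨(g n)⁻¹ * z, hn⟩ := by
  subst h
  rfl

omit [TopologicalSpace H] in
theorem index_eq (V : κ → Set H) (g : κ → H)
    (hd : ∀ i j, i ≠ j → Disjoint (g i • V i) (g j • V j))
    (m n : κ) (z : H) (hm : (g m)⁻¹ * z ∈ V m) (hn : (g n)⁻¹ * z ∈ V n) : m = n := by
  by_contra hne
  exact Set.disjoint_left.1 (hd m n hne) ((mem_iff (g m) (V m) z).2 hm)
    ((mem_iff (g n) (V n) z).2 hn)

/-- the union of the translates -/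
def Z (V : κ → Set H) (g : κ → H) : Set H := ⋃ n, g n • V n

omit [TopologicalSpace H] in
theorem exists_index (V : κ → Set H) (g : κ → H) (z : Z V g) : ∃ n, (g n)⁻¹ * z.1 ∈ V n := by
  obtain ⟨n, hn⟩ := Set.mem_iUnion.1 z.2
  exact ⟨n, (mem_iff (g n) (V n) z.1).1 hn⟩

/-- the translate which contains `z` -/
noncomputable def idx (V : κ → Set H) (g : κ → H) (z : Z V g) : κ :=
  (exists_index V g z).choose

omit [TopologicalSpace H] in
theorem idx_spec (V : κ → Set H) (g : κ → H) (z : Z V g) :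
    (g (idx V g z))⁻¹ * z.1 ∈ V (idx V g z) :=
  (exists_index V g z).choose_spec

/-- the function given on every translate -/
noncomputable def glue (V : κ → Set H) (g : κ → H) (F : ∀ q, ↥(Cp (V q))) (z : Z V g) : ℝ :=
  (F (idx V g z)).1 ⟨(g (idx V g z))⁻¹ * z.1, idx_spec V g z⟩

theorem glue_eq (V : κ → Set H) (g : κ → H)
    (hd : ∀ i j, i ≠ j → Disjoint (g i • V i) (g j • V j))
    (F : ∀ q, ↥(Cp (V q))) (z : Z V g) (n : κ) (hn : (g n)⁻¹ * z.1 ∈ V n) :
    glue V g F z = (F n).1 ⟨(g n)⁻¹ * z.1, hn⟩ :=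
  key V g F _ n z.1 _ hn (index_eq V g hd _ n z.1 (idx_spec V g z) hn)

theorem glue_cont [IsTopologicalGroup H] (V : κ → Set H) (g : κ → H) (hV : ∀ q, IsClosed (V q))
    (hd : ∀ i j, i ≠ j → Disjoint (g i • V i) (g j • V j))
    (hl : LocallyFinite fun i => g i • V i)
    (F : ∀ q, ↥(Cp (V q))) : Continuous (glue V g F) := by
  have h1 : LocallyFinite fun n => (Subtype.val : Z V g → H) ⁻¹' (g n • V n) :=
    hl.preimage_continuous continuous_subtype_val
  refine h1.continuous ?_ (fun n => ((hV n).smul (g n)).preimage continuous_subtype_val)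
    fun n => ?_
  · ext z
    simp only [Set.mem_iUnion, Set.mem_preimage, Set.mem_univ, iff_true]
    exact Set.mem_iUnion.1 z.2
  · rw [continuousOn_iff_continuous_domRestrict]
    have h2 : ∀ y : ↥((Subtype.val : Z V g → H) ⁻¹' (g n • V n)), (g n)⁻¹ * y.1.1 ∈ V n :=
      fun y => (mem_iff (g n) (V n) y.1.1).1 y.2
    have h3 : ((Subtype.val : Z V g → H) ⁻¹' (g n • V n)).domRestrict (glue V g F)
        = fun y => (F n).1 ⟨(g n)⁻¹ * y.1.1, h2 y⟩ := by
      funext y
      exact glue_eq V g hd F y.1 n (h2 y)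
    rw [h3]
    have h4 : Continuous (F n).1 := (F n).2
    refine h4.comp ?_
    exact Continuous.subtype_mk (continuous_const.mul
      (continuous_subtype_val.comp continuous_subtype_val)) _

/-- `glue` as a continuous linear map -/
noncomputable def glueL [IsTopologicalGroup H] (V : κ → Set H) (g : κ → H)
    (hV : ∀ q, IsClosed (V q))
    (hd : ∀ i j, i ≠ j → Disjoint (g i • V i) (g j • V j))
    (hl : LocallyFinite fun i => g i • V i) :
    (∀ q, ↥(Cp (V q))) →L[ℝ] ↥(Cp (Z V g)) where
  toFun F := ⟨glue V g F, glue_cont V g hV hd hl F⟩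
  map_add' F F' := Subtype.ext (funext fun z => rfl)
  map_smul' c F := Subtype.ext (funext fun z => rfl)
  cont := by
    refine Topology.IsInducing.subtypeVal.continuous_iff.2 (continuous_pi fun z => ?_)
    exact (continuous_apply (⟨(g (idx V g z))⁻¹ * z.1, idx_spec V g z⟩ : V (idx V g z))).comp
      (continuous_subtype_val.comp (continuous_apply (idx V g z)))

/-- the restriction to every translate -/
noncomputable def resL [IsTopologicalGroup H] (V : κ → Set H) (g : κ → H) :
    ↥(Cp H) →L[ℝ] (∀ q, ↥(Cp (V q))) where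
  toFun f n := ⟨fun v => f.1 (g n * v.1), Continuous.comp (f.2 : Continuous f.1)
    (continuous_const.mul continuous_subtype_val)⟩
  map_add' f f' := rfl
  map_smul' c f := rfl
  cont := by
    refine continuous_pi fun n => Topology.IsInducing.subtypeVal.continuous_iff.2
      (continuous_pi fun v => ?_)
    exact (continuous_apply (g n * v.1)).comp continuous_subtype_val

theorem trans_compl (dug : DugStmt) [IsTopologicalGroup H] [TopologicalSpace.MetrizableSpace H]
    (V : κ → Set H) (g : κ → H) (hV : ∀ q, IsClosed (V q))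
    (hd : ∀ i j, i ≠ j → Disjoint (g i • V i) (g j • V j))
    (hl : LocallyFinite fun i => g i • V i) :
    Compl (∀ q, ↥(Cp (V q))) ↥(Cp H) := by
  have hZ : IsClosed (Z V g) := hl.isClosed_iUnion fun n => (hV n).smul (g n)
  obtain ⟨φ, hφ⟩ := dug H (Z V g) hZ
  refine ⟨φ.comp (glueL V g hV hd hl), resL V g, fun F => ?_⟩
  funext n
  refine Subtype.ext (funext fun v => ?_)
  have hv : g n * v.1 ∈ Z V g :=
    Set.mem_iUnion.2 ⟨n, (mem_iff (g n) (V n) _).2 (by rw [inv_mul_cancel_left]; exact v.2)⟩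
  have h5 : (g n)⁻¹ * (⟨g n * v.1, hv⟩ : Z V g).1 ∈ V n := by
    change (g n)⁻¹ * (g n * v.1) ∈ V n
    rw [inv_mul_cancel_left]
    exact v.2
  calc (φ (glueL V g hV hd hl F)).1 (g n * v.1)
      = glue V g F ⟨g n * v.1, hv⟩ := hφ (glueL V g hV hd hl F) ⟨g n * v.1, hv⟩
    _ = (F n).1 ⟨(g n)⁻¹ * (⟨g n * v.1, hv⟩ : Z V g).1, h5⟩ :=
        glue_eq V g hd F ⟨g n * v.1, hv⟩ n h5
    _ = (F n).1 v := by
        apply congrArg
        exact Subtype.ext (inv_mul_cancel_left (g n) v.1)

end trans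

/-! ### the space `E` -/

section E

variable (M : ℕ → Type) [∀ n, AddCommGroup (M n)] [∀ n, Module ℝ (M n)]
  [∀ n, TopologicalSpace (M n)]

/-- the functions on pairs are sequences of functions on pairs -/
noncomputable def pairE : (∀ q : ℕ × ℕ, M q.1) ≃L[ℝ] (ℕ → ∀ q : ℕ × ℕ, M q.1) where
  toFun F := fun k q => F (q.1, Nat.pair k q.2)
  invFun G := fun q => G (Nat.unpair q.2).1 (q.1, (Nat.unpair q.2).2)
  map_add' _ _ := rfl
  map_smul' _ _ := rfl
  left_inv F := by
    funext q
    exact congrArg (β := M q.1) (fun x => F (q.1, x)) (Nat.pair_unpair q.2)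
  right_inv G := by
    funext k q
    have h1 : Nat.unpair (Nat.pair k q.2) = (k, q.2) := Nat.unpair_pair k q.2
    exact congrArg (β := M q.1) (fun x : ℕ × ℕ => G x.1 (q.1, x.2)) h1
  continuous_toFun := by
    refine continuous_pi fun k => continuous_pi fun q => ?_
    exact continuous_apply (A := fun q : ℕ × ℕ => M q.1) (q.1, Nat.pair k q.2)
  continuous_invFun := by
    refine continuous_pi fun q => ?_
    exact (continuous_apply (A := fun q : ℕ × ℕ => M q.1) (q.1, (Nat.unpair q.2).2)).comp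
      (continuous_apply (Nat.unpair q.2).1)

theorem compl_E : Compl (∀ n, M n) (∀ q : ℕ × ℕ, M q.1) :=
  ⟨{ toFun := fun F q => F q.1
     map_add' := fun _ _ => rfl
     map_smul' := fun _ _ => rfl
     cont := continuous_pi fun q => continuous_apply q.1 },
   { toFun := fun G n => G (n, 0)
     map_add' := fun _ _ => rfl
     map_smul' := fun _ _ => rfl
     cont := continuous_pi fun n => continuous_apply (A := fun q : ℕ × ℕ => M q.1) (n, 0) },
   fun _ => rfl⟩

end E

theorem unb (dug : DugStmt) (pel : PelStmt) (cex : CexStmt) (cpe : CpeStmt) (bri : BriStmt) :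
    UnbStmt := by
  intro H _ _ _ _ ℓ hc hmul hinv hunb
  -- elementary facts
  have hle : ∀ g b, ℓ (g * b) ≤ ℓ g + ℓ b := hmul
  have hge : ∀ g b, ℓ g - ℓ b ≤ ℓ (g * b) := by
    intro g b
    have h1 := hmul (g * b) b⁻¹
    rw [mul_inv_cancel_right, hinv] at h1
    linarith
  have hpos : ∀ g, 0 ≤ ℓ g := by
    intro g
    have h1 := hmul 1 1
    have h2 := hmul g g⁻¹
    rw [mul_one] at h1
    rw [mul_inv_cancel, hinv] at h2
    linarith
  -- the pieces
  let B : ℕ → Set H := fun n => {h | (n : ℝ) - 1 ≤ ℓ h ∧ ℓ h ≤ n + 1}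
  let U : ℕ → Set H := fun n => {h | (n : ℝ) - 1 < ℓ h ∧ ℓ h < n + 1}
  have hB : ∀ n, IsClosed (B n) := fun n =>
    (isClosed_le continuous_const hc).inter (isClosed_le hc continuous_const)
  have hU : ∀ n, IsOpen (U n) := fun n =>
    (isOpen_lt continuous_const hc).inter (isOpen_lt hc continuous_const)
  have hUB : ∀ n, U n ⊆ B n := fun n h hh => ⟨hh.1.le, hh.2.le⟩
  have hcov : (univ : Set H) ⊆ ⋃ n, U n := by
    intro h _
    refine mem_iUnion.2 ⟨⌊ℓ h⌋₊, ?_, Nat.lt_floor_add_one _⟩
    have := Nat.floor_le (hpos h)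
    linarith
  have ca : Compl ↥(Cp H) (∀ n, ↥(Cp (B n))) := cover_compl B U hU hUB hcov
  -- the translates
  choose γ hγ using hunb
  let g : ℕ → H := fun j => Nat.rec (1 : H)
    (fun j gj => γ (ℓ gj + ((Nat.unpair j).1 : ℝ) + ((Nat.unpair (j + 1)).1 : ℝ) + 4)) j
  have hg : ∀ j, ℓ (g j) + ((Nat.unpair j).1 : ℝ) + ((Nat.unpair (j + 1)).1 : ℝ) + 4 <
      ℓ (g (j + 1)) := fun j => hγ _
  let r : ℕ → ℝ := fun j => ((Nat.unpair j).1 : ℝ) + 1
  have hr : ∀ j, 0 ≤ r j := fun j => by positivity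
  have hsep : ∀ j k, ℓ (g j) + r j + 2 < ℓ (g (j + 1 + k)) - r (j + 1 + k) := by
    intro j k
    induction k with
    | zero =>
      have h1 := hg j
      simp only [r, add_zero]
      linarith
    | succ k ih =>
      have h1 := hg (j + 1 + k)
      have h2 := hr (j + 1 + k)
      have h3 : ℓ (g (j + 1 + k)) + r (j + 1 + k) + 2 <
          ℓ (g (j + 1 + (k + 1))) - r (j + 1 + (k + 1)) := by
        simp only [r]
        have h4 : j + 1 + (k + 1) = j + 1 + k + 1 := by ring
        rw [h4]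
        linarith
      linarith
  have hsep' : ∀ j j', j < j' → ℓ (g j) + r j + 2 < ℓ (g j') - r j' := by
    intro j j' hjj
    obtain ⟨k, rfl⟩ := Nat.exists_eq_add_of_lt hjj
    have := hsep j k
    have h4 : j + k + 1 = j + 1 + k := by ring
    rw [h4]
    exact this
  let V : ℕ × ℕ → Set H := fun q => B q.1
  let gg : ℕ × ℕ → H := fun q => g (Nat.pair q.1 q.2)
  have hr' : ∀ q : ℕ × ℕ, r (Nat.pair q.1 q.2) = (q.1 : ℝ) + 1 := by
    intro q
    simp only [r, Nat.unpair_pair]
  have hval : ∀ (q : ℕ × ℕ) (z : H), z ∈ gg q • V q →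
      ℓ (gg q) - r (Nat.pair q.1 q.2) ≤ ℓ z ∧ ℓ z ≤ ℓ (gg q) + r (Nat.pair q.1 q.2) := by
    intro q z hz
    obtain ⟨b, hb, rfl⟩ := hz
    have hb2 : ℓ b ≤ (q.1 : ℝ) + 1 := hb.2
    rw [hr']
    simp only [smul_eq_mul]
    constructor
    · have := hge (gg q) b
      linarith
    · have := hle (gg q) b
      linarith
  have hclose : ∀ (q q' : ℕ × ℕ) (z z' : H), z ∈ gg q • V q → z' ∈ gg q' • V q' →
      |ℓ z - ℓ z'| < 2 → q = q' := by
    intro q q' z z' hz hz' hzz
    have h1 := hval q z hz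
    have h2 := hval q' z' hz'
    rw [abs_lt] at hzz
    rcases lt_trichotomy (Nat.pair q.1 q.2) (Nat.pair q'.1 q'.2) with h | h | h
    · have h3 := hsep' _ _ h
      exfalso
      simp only [gg] at h1 h2
      linarith
    · have h3 := congrArg Nat.unpair h
      rw [Nat.unpair_pair, Nat.unpair_pair] at h3
      exact h3
    · have h3 := hsep' _ _ h
      exfalso
      simp only [gg] at h1 h2
      linarith
  have hd : ∀ i j, i ≠ j → Disjoint (gg i • V i) (gg j • V j) := by
    intro i j hij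
    rw [Set.disjoint_left]
    intro z hz hz'
    exact hij (hclose i j z z hz hz' (by rw [sub_self, abs_zero]; norm_num))
  have hl : LocallyFinite fun q => gg q • V q := by
    intro x
    refine ⟨{y | |ℓ y - ℓ x| < 1}, ?_, ?_⟩
    · have hop : IsOpen {y : H | |ℓ y - ℓ x| < 1} :=
        isOpen_lt ((hc.sub continuous_const).abs) continuous_const
      exact hop.mem_nhds (by simp)
    · apply Set.Subsingleton.finite
      rintro q ⟨y, hy, hyx⟩ q' ⟨y', hy', hyx'⟩
      refine hclose q q' y y' hy hy' ?_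
      have h1 : |ℓ y - ℓ x| < 1 := hyx
      have h2 : |ℓ y' - ℓ x| < 1 := hyx'
      rw [abs_lt] at h1 h2 ⊢
      constructor <;> linarith
  have cb : Compl (∀ q : ℕ × ℕ, ↥(Cp (B q.1))) ↥(Cp H) :=
    trans_compl dug V gg (fun q => hB q.1) hd hl
  have cc : Compl ↥(Cp H) (∀ q : ℕ × ℕ, ↥(Cp (B q.1))) :=
    compl_trans ca (compl_E fun n => ↥(Cp (B n)))
  obtain ⟨e⟩ := (pel (∀ q : ℕ × ℕ, ↥(Cp (B q.1))) ↥(Cp H)
    ⟨pairE fun n => ↥(Cp (B n))⟩).1 cb cc
  have e2 : ↥(Cp H) ≃L[ℝ] (ℕ → ↥(Cp H)) :=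
    (e.trans (pairE fun n => ↥(Cp (B n)))).trans
      (ContinuousLinearEquiv.piCongrRight fun _ => e.symm)
  constructor
  · obtain ⟨e3⟩ := cpe.1 (H × ℕ) (Σ _ : ℕ, H) ⟨homN H⟩
    obtain ⟨e4⟩ := cpe.2.2.1 ℕ (fun _ => H)
    exact (bri.1 H (H × ℕ)).2 ⟨e2.trans (e3.trans e4).symm⟩
  · intro A hA
    have c3 : Compl ↥(Cp A) ↥(Cp H) := cex.1 H A ((bri.2 H A).1 hA)
    obtain ⟨e3⟩ := (pel ↥(Cp H) ↥(Cp A) ⟨e2⟩).2 c3
    obtain ⟨e4⟩ := cpe.2.1 H A
    exact (bri.1 H (H ⊕ A)).2 ⟨e3.trans e4.symm⟩

end Pool.Agent.LSG.H25
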